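import Pool.Agent.H1.AV.HMP

/-!
# COD: the number of conditions for a zero of order `w` along `T = T' = 0`
-/

set_option autoImplicit false

namespace Pool.Agent.H1.AV

open MvPolynomial SC Pool.Agent.H27.LV Pool.Agent.H30.AV

/-- exponents of degree `M` with degree less than `w` in the first two variables -/
abbrev Jx (β M w : ℕ) : Type := {μ : Mon (β + 2) M // μ.1 0 + μ.1 1 < w}

theorem sum_Jx {β M : ℕ} (μ : Mon (β + 2) M) :
    μ.1 0 + (μ.1 1 + ∑ i : Fin β, μ.1 i.succ.succ) = M := by
  have h := μ.2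
  rw [Fin.sum_univ_succ, Fin.sum_univ_succ] at h
  exact h

theorem card_Jx (β M w : ℕ) : Nat.card (Jx β M w) ≤ cnt β M w := by
  classical
  haveI : Fintype (Jx β M w) := Fintype.ofFinite _
  rw [Nat.card_eq_fintype_card, ← Finset.card_univ]
  unfold cnt
  rw [Finset.card_eq_sum_card_fiberwise (s := (Finset.univ : Finset (Jx β M w)))
    (t := Finset.range w) (f := fun μ : Jx β M w => μ.1.1 0 + μ.1.1 1)
    (fun μ _ => Finset.mem_coe.2 (Finset.mem_range.2 μ.2))]
  refine Finset.sum_le_sum fun j _ => ?_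
  split_ifs with hj
  · have hc : (j + 1) * Fintype.card (Mon β (M - j)) =
        Fintype.card (Fin (j + 1) × Mon β (M - j)) := by
      rw [Fintype.card_prod, Fintype.card_fin]
    rw [← Fintype.card_subtype, hc]
    refine Fintype.card_le_of_injective
      (fun x : {μ : Jx β M w // μ.1.1 0 + μ.1.1 1 = j} =>
        ((⟨x.1.1.1 0, by have := x.2; omega⟩ : Fin (j + 1)),
          (⟨fun i => x.1.1.1 i.succ.succ, by
            show ∑ i : Fin β, x.1.1.1 i.succ.succ = M - j
            have := sum_Jx x.1.1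
            have := x.2
            omega⟩ : Mon β (M - j)))) ?_
    rintro ⟨⟨⟨a, ha⟩, ha'⟩, ha''⟩ ⟨⟨⟨b, hb⟩, hb'⟩, hb''⟩ h
    simp only [Prod.mk.injEq, Fin.mk.injEq, Subtype.mk.injEq] at h
    simp only [Subtype.mk.injEq]
    simp only at ha'' hb''
    funext i
    refine Fin.cases ?_ (fun i => Fin.cases ?_ (fun i => ?_) i) i
    · exact h.1
    · have h0 := h.1
      show a 1 = b 1
      omega
    · exact congrFun h.2 i
  · rw [Nat.le_zero, Finset.card_eq_zero, Finset.filter_eq_empty_iff]
    intro μ _ hμ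
    have := sum_Jx μ.1
    omega

theorem exists_pad {L V : Type} [Field L] [AddCommGroup V] [Module L V] {ι : Type} [Finite ι]
    (K : ℕ) (h : Nat.card ι ≤ K) (φ' : V →ₗ[L] (ι → L)) :
    ∃ φ : V →ₗ[L] (Fin K → L), ∀ v, φ v = 0 → φ' v = 0 := by
  classical
  haveI := Fintype.ofFinite ι
  obtain ⟨i⟩ : Nonempty (ι ↪ Fin K) := by
    rw [Function.Embedding.nonempty_iff_card_le, Fintype.card_fin]
    rwa [Nat.card_eq_fintype_card] at h
  refine ⟨LinearMap.pi fun k => if hk : ∃ x, i x = k then
    (LinearMap.proj hk.choose).comp φ' else 0, fun v hv => ?_⟩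
  funext x
  have h1 := congrFun hv (i x)
  have hk : ∃ y, i y = i x := ⟨x, rfl⟩
  rw [LinearMap.pi_apply, dif_pos hk] at h1
  have hc : hk.choose = x := i.injective hk.choose_spec
  rw [hc] at h1
  exact h1

theorem aeval_mem {L τ : Type} [Field L] {β : ℕ} (w : ℕ) (t : Fin (β + 2) → MvPolynomial τ L)
    (f : MvPolynomial (Fin (β + 2)) L) (hf : ∀ μ ∈ f.support, w ≤ μ 0 + μ 1) :
    aeval t f ∈ (Ideal.span {t 0, t 1}) ^ w := by
  rw [f.as_sum, map_sum]
  refine Ideal.sum_mem _ fun μ hμ => ?_
  rw [aeval_monomial, Finsupp.prod_fintype _ _ (fun i => pow_zero _), Fin.prod_univ_succ,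
    Fin.prod_univ_succ, ← mul_assoc (t 0 ^ μ 0)]
  refine Ideal.mul_mem_left _ _ (Ideal.mul_mem_right _ _ ?_)
  refine Ideal.pow_le_pow_right (hf μ hμ) ?_
  rw [pow_add]
  refine Ideal.mul_mem_mul (Ideal.pow_mem_pow (Ideal.subset_span (by simp)) _)
    (Ideal.pow_mem_pow (Ideal.subset_span (by simp)) _)

section Hom

attribute [local instance] MvPolynomial.gradedAlgebra

theorem isHom_sup {L τ : Type} [Field L] {P Q : Ideal (MvPolynomial τ L)} (hP : IsHom P)
    (hQ : IsHom Q) : IsHom (P ⊔ Q) :=
  (isHom_iff _).2 (((isHom_iff P).1 hP).sup ((isHom_iff Q).1 hQ))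

theorem isHom_span {L τ : Type} [Field L] {ι : Type} (t : ι → MvPolynomial τ L)
    (ht : ∀ i, (t i).IsHomogeneous 1) : IsHom (Ideal.span (Set.range t)) := by
  refine (isHom_iff _).2 (Ideal.homogeneous_span _ _ ?_)
  rintro _ ⟨i, rfl⟩
  exact ⟨1, ht i⟩

end Hom

/-- lower the exponent with the index `2` -/
def sh {n : ℕ} (a : ℕ) (ν : Fin n → ℕ) : Fin n → ℕ := fun i => if i.val = 2 then ν i - a else ν i

theorem exists_raise {β : ℕ} (μ : Fin (β + 2) → ℕ) (a w : ℕ) (h1 : μ 0 + μ 1 < w)
    (h2 : w ≤ ∑ i, μ i) : ∃ ν : Fin (β + 2) → ℕ, ∑ i, ν i = ∑ i, μ i + a ∧ ν 0 + ν 1 < w ∧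
      sh a ν = μ := by
  classical
  have hβ : 1 ≤ β := by
    by_contra hβ
    have hβ0 : β = 0 := by omega
    subst hβ0
    rw [Fin.sum_univ_two] at h2
    omega
  refine ⟨fun i => if i.val = 2 then μ i + a else μ i, ?_, ?_, ?_⟩
  · have : ∀ i : Fin (β + 2), (if i.val = 2 then μ i + a else μ i) =
        μ i + if i = (⟨2, by omega⟩ : Fin (β + 2)) then a else 0 := by
      intro i
      by_cases hi : i.val = 2
      · rw [if_pos hi, if_pos (Fin.ext hi)]
      · rw [if_neg hi, if_neg (fun h => hi (by rw [h])), add_zero]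
    simp only [this]
    rw [Finset.sum_add_distrib, Finset.sum_ite_eq' Finset.univ, if_pos (Finset.mem_univ _)]
  · have e0 : ((0 : Fin (β + 2)).val = 2) = False := by simp
    have e1 : ((1 : Fin (β + 2)).val = 2) = False := by simp
    simp only [e0, e1, if_false]
    exact h1
  · funext i
    unfold sh
    by_cases hi : i.val = 2
    · simp [hi]
    · simp [hi]

theorem pf_COD (hNNS : T_NNS) (hFNT : T_FNT) (hALI : T_ALI) (hLAT : T_LAT) : T_COD := by
  classical
  intro L τ _ _ _ β P T T' hP hPh htr hT hT' hQ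
  obtain ⟨t, ht1, ht0, ht1', htQ⟩ := hNNS L τ β P T T' hP hPh hT hT' hQ
  obtain ⟨m, hm⟩ := hFNT L τ (P ⊔ Ideal.span (Set.range t)) (isHom_sup hPh (isHom_span t ht1))
    (fun Q hQ1 hQ2 hQ3 => htQ Q hQ1 hQ2 (le_sup_left.trans hQ3)
      (fun i => hQ3 (le_sup_right (a := P) (Ideal.subset_span ⟨i, rfl⟩))))
  have hind := hALI L τ β m P t hP hPh htr ht1 hm
  obtain ⟨d, e, δ, g0, c, hd, he, hg0, hg0', hli, hrep⟩ := hLAT L τ β m P t hP hPh ht1 hm hind
  have hδ : ∀ j, δ j ≤ ∑ j, δ j := fun j =>
    Finset.single_le_sum (f := δ) (fun _ _ => Nat.zero_le _) (Finset.mem_univ j)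
  refine ⟨d, ∑ j, δ j, c, aeval t g0, hd, ?_, fun h => hg0' (hind g0 h), ?_, ?_⟩
  · have := hg0.aeval t ht1
    rwa [one_mul] at this
  · intro N w hNw
    have hrep' : ∀ M : τ →₀ ℕ, ∃ h : Fin d → MvPolynomial (Fin (β + 2)) L, M.degree = N →
        ((∀ j, h j = 0 ∨ ∃ a, a + δ j = N + c ∧ (h j).IsHomogeneous a) ∧
        aeval t g0 * monomial M 1 - ∑ j, aeval t (h j) * e j ∈ P) := by
      intro M
      by_cases hM : M.degree = N
      · obtain ⟨h, hh⟩ := hrep N (monomial M 1) (isHomogeneous_monomial 1 hM)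
        exact ⟨h, fun _ => hh⟩
      · exact ⟨0, fun h => absurd h hM⟩
    choose h hh using hrep'
    let S : Finset (τ →₀ ℕ) := Finset.univ.finsuppAntidiag N
    have hS : ∀ M, M ∈ S ↔ M.degree = N := by
      intro M
      rw [Finset.mem_finsuppAntidiag, Finsupp.degree_eq_sum]
      exact ⟨fun h => h.1, fun h => ⟨h, Finset.subset_univ _⟩⟩
    let H : MvPolynomial τ L →ₗ[L] (Fin d → MvPolynomial (Fin (β + 2)) L) :=
      { toFun := fun G => ∑ M ∈ S, coeff M G • h M
        map_add' := by
          intro G G'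
          simp only [coeff_add, add_smul, Finset.sum_add_distrib]
        map_smul' := by
          intro a G
          simp only [coeff_smul, smul_eq_mul, mul_smul, Finset.smul_sum, RingHom.id_apply] }
    have hHj : ∀ G j, H G j = ∑ M ∈ S, coeff M G • h M j := by
      intro G j
      show (∑ M ∈ S, coeff M G • h M) j = _
      rw [Finset.sum_apply]
      rfl
    let φ' : MvPolynomial τ L →ₗ[L] (Fin d × Jx β (N + c) w → L) :=
      { toFun := fun G x => coeff (Finsupp.equivFunOnFinite.symm (sh (δ x.1) x.2.1.1)) (H G x.1)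
        map_add' := by
          intro G G'
          funext x
          rw [map_add, Pi.add_apply, coeff_add]
          rfl
        map_smul' := by
          intro a G
          funext x
          rw [map_smul, Pi.smul_apply, coeff_smul]
          rfl }
    have hcard : Nat.card (Fin d × Jx β (N + c) w) ≤ d * cnt β (N + c) w := by
      rw [Nat.card_prod, Nat.card_fin]
      exact Nat.mul_le_mul_left d (card_Jx β (N + c) w)
    obtain ⟨φ, hφ⟩ := exists_pad (d * cnt β (N + c) w) hcard φ'
    refine ⟨φ, fun G hG hG0 => ?_⟩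
    have h0 := hφ G hG0
    have hGs : ∑ M ∈ S, coeff M G • (monomial M (1 : L)) = G := by
      conv_rhs => rw [G.as_sum]
      rw [← Finset.sum_subset (s₁ := G.support)]
      · refine Finset.sum_congr rfl fun M _ => ?_
        rw [smul_monomial, smul_eq_mul, mul_one]
      · intro M hM
        rw [hS]
        by_contra hcon
        exact (mem_support_iff.1 hM) (hG.coeff_eq_zero hcon)
      · intro M _ hM
        rw [notMem_support_iff.1 hM, zero_smul]
    have hmem : ∀ j, aeval t (H G j) ∈ (Ideal.span {T, T'}) ^ w := by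
      intro j
      rw [← ht0, ← ht1']
      refine aeval_mem w t _ fun μ hμ => ?_
      by_contra hcon
      have hμ' := mem_support_iff.1 hμ
      have hdeg : (∑ i, μ i) + δ j = N + c := by
        rw [hHj, coeff_sum] at hμ'
        obtain ⟨M, hM, hM'⟩ := Finset.exists_ne_zero_of_sum_ne_zero hμ'
        rw [coeff_smul, smul_eq_mul] at hM'
        have hM2 := right_ne_zero_of_mul hM'
        rcases (hh M ((hS M).1 hM)).1 j with h3 | ⟨a, ha, ha'⟩
        · rw [h3] at hM2
          exact absurd (coeff_zero _) hM2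
        · have : μ.degree = a := by
            by_contra hne
            exact hM2 (ha'.coeff_eq_zero hne)
          rw [← Finsupp.degree_eq_sum, this, ha]
      have hδj := hδ j
      obtain ⟨ν, hν1, hν2, hν3⟩ := exists_raise (fun i => μ i) (δ j) w (by omega) (by
        show w ≤ ∑ i, μ i
        omega)
      have hν1' : ∑ i, ν i = N + c := by
        rw [hν1]
        exact hdeg
      have h5 := congrFun h0 (j, ⟨⟨ν, hν1'⟩, hν2⟩)
      apply hμ'
      have h6 : Finsupp.equivFunOnFinite.symm (sh (δ j) ν) = μ := by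
        rw [hν3]
        ext i
        rfl
      have h7 : coeff (Finsupp.equivFunOnFinite.symm (sh (δ j) ν)) (H G j) = 0 := h5
      rwa [h6] at h7
    have hcong : aeval t g0 * G - ∑ j, aeval t (H G j) * e j ∈ P := by
      have h8 : aeval t g0 * G - ∑ j, aeval t (H G j) * e j =
          ∑ M ∈ S, coeff M G • (aeval t g0 * monomial M 1 - ∑ j, aeval t (h M j) * e j) := by
        simp only [smul_sub, Finset.sum_sub_distrib]
        congr 1
        · conv_lhs => rw [← hGs]
          rw [Finset.mul_sum]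
          refine Finset.sum_congr rfl fun M _ => ?_
          rw [mul_smul_comm]
        · simp only [hHj, map_sum, map_smul, Finset.sum_mul, Finset.smul_sum, smul_mul_assoc]
          rw [Finset.sum_comm]
      rw [h8]
      refine Ideal.sum_mem _ fun M hM => ?_
      rw [Algebra.smul_def]
      exact Ideal.mul_mem_left _ _ (hh M ((hS M).1 hM)).2
    have h9 : aeval t g0 * G = ∑ j, aeval t (H G j) * e j +
        (aeval t g0 * G - ∑ j, aeval t (H G j) * e j) := by ring
    rw [h9]
    exact Submodule.add_mem_sup (Ideal.sum_mem _ fun j _ => Ideal.mul_mem_right _ _ (hmem j)) hcong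
  · intro N hN
    let xp : Mon (β + 2) (N - ∑ j, δ j) → (Fin (β + 2) →₀ ℕ) := fun M =>
      Finsupp.equivFunOnFinite.symm M.1
    have hxp : ∀ M, (xp M).degree = N - ∑ j, δ j := by
      intro M
      rw [Finsupp.degree_eq_sum]
      exact M.2
    have hxi : Function.Injective xp := fun M M' hM =>
      Subtype.ext (Finsupp.equivFunOnFinite.symm.injective hM)
    let E' : Fin d × Mon (β + 2) (N - ∑ j, δ j) → MvPolynomial τ L := fun x =>
      T ^ ((∑ j, δ j) - δ x.1) * aeval t (monomial (xp x.2) (1 : L)) * e x.1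
    let ee : Fin (d * Fintype.card (Mon (β + 2) (N - ∑ j, δ j))) ≃
        Fin d × Mon (β + 2) (N - ∑ j, δ j) :=
      finProdFinEquiv.symm.trans ((Equiv.refl _).prodCongr (Fintype.equivFin _).symm)
    refine ⟨fun k => E' (ee k), ?_, ?_⟩
    · intro k
      have h1 := ((hT.pow ((∑ j, δ j) - δ (ee k).1)).mul
        ((isHomogeneous_monomial (1 : L) (hxp (ee k).2)).aeval t ht1)).mul (he (ee k).1)
      have h2 : 1 * ((∑ j, δ j) - δ (ee k).1) + 1 * (N - ∑ j, δ j) + δ (ee k).1 = N := by
        have := hδ (ee k).1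
        omega
      rw [h2] at h1
      exact h1
    · intro l hl
      let hh : Fin d → MvPolynomial (Fin (β + 2)) L := fun j =>
        ∑ M : Mon (β + 2) (N - ∑ j, δ j), C (l (ee.symm (j, M))) *
          (X 0 ^ ((∑ j, δ j) - δ j) * monomial (xp M) 1)
      have h1 : ∑ k, C (l k) * E' (ee k) = ∑ j, aeval t (hh j) * e j := by
        rw [← ee.symm.sum_comp (fun k => C (l k) * E' (ee k)), Fintype.sum_prod_type]
        refine Finset.sum_congr rfl fun j _ => ?_
        simp only [hh, map_sum, map_mul, map_pow, aeval_X, aeval_C, Finset.sum_mul, ht0]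
        refine Finset.sum_congr rfl fun M _ => ?_
        rw [Equiv.apply_symm_apply]
        simp only [E', MvPolynomial.algebraMap_eq]
        ring
      rw [h1] at hl
      have h2 := hli hh hl
      funext k
      obtain ⟨⟨j, M⟩, rfl⟩ := ee.symm.surjective k
      have h3 := congrFun h2 j
      have h4 := congrArg (coeff (Finsupp.single 0 ((∑ j, δ j) - δ j) + xp M)) h3
      rw [Pi.zero_apply, coeff_zero] at h4
      rw [Pi.zero_apply, ← h4]
      simp only [hh, X_pow_eq_monomial, monomial_mul, C_mul_monomial, mul_one, coeff_sum,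
        coeff_monomial]
      rw [Finset.sum_eq_single M]
      · rw [if_pos rfl]
      · intro M' _ hM'
        rw [if_neg]
        intro h5
        exact hM' (hxi (add_left_cancel h5))
      · intro h5
        exact absurd (Finset.mem_univ _) h5

end Pool.Agent.H1.AV
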