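import Pool.Agent.H30.AV.Targets

/-!
# HMP: the minimal primes of a homogeneous ideal
-/

set_option autoImplicit false

namespace Pool.Agent.H1.AV

open MvPolynomial SC Pool.Agent.H27.LV Pool.Agent.H30.AV

attribute [local instance] MvPolynomial.gradedAlgebra

theorem isHom_iff {L τ : Type} [Field L] (I : Ideal (MvPolynomial τ L)) :
    IsHom I ↔ I.IsHomogeneous (homogeneousSubmodule τ L) := by
  classical
  have hd : ∀ (g : MvPolynomial τ L) (i : ℕ),
      ((DirectSum.decompose (homogeneousSubmodule τ L) g i : homogeneousSubmodule τ L i) :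
        MvPolynomial τ L) = homogeneousComponent i g :=
    fun g i => decomposition.decompose'_apply g i
  constructor
  · intro h i g hg
    rw [hd]
    exact h g hg i
  · intro h g hg i
    rw [← hd]
    exact h i hg

theorem pf_HMP : T_HMP := by
  classical
  intro L τ _ _ A hA
  have hfin := A.finite_minimalPrimes_of_isNoetherianRing (R := MvPolynomial τ L)
  refine ⟨hfin.toFinset, ?_, ?_, ?_⟩
  · intro Q hQ
    rw [Set.Finite.mem_toFinset] at hQ
    have hQ' := hQ
    obtain ⟨⟨hp, hAQ⟩, hmin⟩ := hQ
    refine ⟨hp, ?_, hAQ⟩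
    have hc : (Q.homogeneousCore (homogeneousSubmodule τ L)).toIdeal.IsPrime :=
      hp.homogeneousCore
    have hAc : A ≤ (Q.homogeneousCore (homogeneousSubmodule τ L)).toIdeal := by
      have h1 := ((isHom_iff A).1 hA).toIdeal_homogeneousCore_eq_self
      rw [← h1]
      exact Ideal.homogeneousCore_mono (homogeneousSubmodule τ L) hAQ
    have hle := hmin ⟨hc, hAc⟩ (Ideal.toIdeal_homogeneousCore_le _ Q)
    have heq : (Q.homogeneousCore (homogeneousSubmodule τ L)).toIdeal = Q :=
      le_antisymm (Ideal.toIdeal_homogeneousCore_le _ Q) hle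
    rw [← heq]
    exact (isHom_iff _).2 (HomogeneousIdeal.isHomogeneous _)
  · intro Q hQ hAQ
    obtain ⟨p, hp, hpQ⟩ := Ideal.exists_minimalPrimes_le hAQ
    exact ⟨p, by rw [Set.Finite.mem_toFinset]; exact hp, hpQ⟩
  · intro f hf
    have : f ∈ A.radical := by
      rw [← Ideal.sInf_minimalPrimes, Ideal.mem_sInf]
      intro Q hQ
      exact hf Q (by rw [Set.Finite.mem_toFinset]; exact hQ)
    exact this

end Pool.Agent.H1.AV
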